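import Mathlib

/-!
# MP_7acd66_nt: an odd integer larger than 1155 with perfect deficiency at most 10

`815634435 = 3 * 5 * 7 * 11 * 547 * 1291` has `σ(n) = 2 n - 6`, so subtracting its proper divisors in
increasing order leaves the remainder `6`.
-/

set_option autoImplicit false

namespace Pool.Agent.Results.MP_7acd66_nt.OddTerm815634435

/-- One step of the greedy subtraction: subtract `d` if possible, otherwise keep the remainder. -/
def step (r d : ℕ) : ℕ := if d ≤ r then r - d else r

/-- The perfect deficiency of `n`: start from the remainder `n` and run through all divisors of `n`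
in increasing order (from `1` to `n`), subtracting each one whenever it is at most the current
remainder. -/
def pd (n : ℕ) : ℕ := (n.divisors.sort (· ≤ ·)).foldl step n

lemma foldl_step (l : List ℕ) (r : ℕ) (h : l.sum ≤ r) : l.foldl step r = r - l.sum := by
  induction l generalizing r with
  | nil => simp
  | cons d l ih =>
    rw [List.sum_cons] at h
    rw [List.foldl_cons, List.sum_cons]
    have h1 : d ≤ r := by omega
    rw [step, if_pos h1, ih _ (by omega)]
    omega

/-- If the sum of the proper divisors of `n ≥ 1` is at most `n` and nonzero (that is, `n ≥ 2`), then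
`pd n` is the difference. -/
lemma pd_of_deficient (n : ℕ) (hn : 2 ≤ n) (h : ∑ d ∈ n.properDivisors, d ≤ n) :
    pd n = n - ∑ d ∈ n.properDivisors, d := by
  have hsort : n.divisors.sort (· ≤ ·) = n.properDivisors.sort (· ≤ ·) ++ [n] := by
    apply List.Perm.eq_of_pairwise (le := (· ≤ ·))
    · intro a b _ _ h1 h2
      exact le_antisymm h1 h2
    · exact Finset.pairwise_sort _ _
    · rw [List.pairwise_append]
      refine ⟨Finset.pairwise_sort _ _, by simp, ?_⟩
      intro a ha b hb
      rw [Finset.mem_sort, Nat.mem_properDivisors] at ha
      simp only [List.mem_singleton] at hb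
      omega
    · rw [← Multiset.coe_eq_coe, ← Multiset.coe_add]
      simp only [Finset.sort_eq]
      have : n.divisors = Finset.cons n n.properDivisors Nat.self_notMem_properDivisors := by
        rw [Finset.cons_eq_insert, Nat.insert_self_properDivisors (by omega)]
      rw [this, Finset.cons_val, ← Multiset.singleton_add, add_comm]
      rfl
  have hsum : (n.properDivisors.sort (· ≤ ·)).sum = ∑ d ∈ n.properDivisors, d := by
    rw [← Multiset.sum_coe, Finset.sort_eq, Finset.sum_eq_multiset_sum, Multiset.map_id']
  have hpos : 1 ≤ ∑ d ∈ n.properDivisors, d := by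
    apply Finset.single_le_sum (f := fun d => d) (fun _ _ => Nat.zero_le _)
    rw [Nat.mem_properDivisors]
    exact ⟨one_dvd _, by omega⟩
  have hf := foldl_step (n.properDivisors.sort (· ≤ ·)) n (by rw [hsum]; exact h)
  rw [pd, hsort, List.foldl_append, hf, hsum]
  simp only [List.foldl_cons, List.foldl_nil, step]
  rw [if_neg (by omega)]

lemma sigma_val : ∑ d ∈ Nat.divisors 815634435, d = 1631268864 := by
  rw [← ArithmeticFunction.sigma_one_apply]
  have hm := ArithmeticFunction.isMultiplicative_sigma (k := 1)
  have hp : ∀ p : ℕ, p.Prime → ArithmeticFunction.sigma 1 p = p + 1 := by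
    intro p hp
    rw [ArithmeticFunction.sigma_one_apply, hp.sum_divisors]
  rw [show (815634435 : ℕ) = 3 * (5 * (7 * (11 * (547 * 1291)))) by norm_num,
    hm.map_mul_of_coprime (by norm_num), hm.map_mul_of_coprime (by norm_num),
    hm.map_mul_of_coprime (by norm_num), hm.map_mul_of_coprime (by norm_num),
    hm.map_mul_of_coprime (by norm_num), hp 3 (by norm_num), hp 5 (by norm_num),
    hp 7 (by norm_num), hp 11 (by norm_num), hp 547 (by norm_num), hp 1291 (by norm_num)]
  try norm_num

/-- **Disproof of Q1.** There is an odd integer larger than `1155` whose perfect deficiency is at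
most `10`. -/
theorem result : ∃ n : ℕ, 1155 < n ∧ Odd n ∧ pd n ≤ 10 := by
  refine ⟨815634435, by norm_num, by decide, ?_⟩
  have h1 : ∑ d ∈ Nat.divisors 815634435, d = ∑ d ∈ Nat.properDivisors 815634435, d + 815634435 :=
    Nat.sum_divisors_eq_sum_properDivisors_add_self
  rw [sigma_val] at h1
  rw [pd_of_deficient _ (by norm_num) (by omega)]
  omega

end Pool.Agent.Results.MP_7acd66_nt.OddTerm815634435
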